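import Mathlib

set_option autoImplicit false

namespace Pool.Agent.Results.MP_59b615_al.NotIso

open Filter Topology

/-- `Q^*`: positive integers all of whose prime factors lie in `Q`. -/
def Qstar (Q : Set ℕ) : Set ℕ := {m | 0 < m ∧ ∀ p, p.Prime → p ∣ m → p ∈ Q}

/-- The topology `τ_Q` on `ℤ`, generated by the cosets `a + mℤ`, `m ∈ Q^*`. -/
@[reducible] def tau (Q : Set ℕ) : TopologicalSpace ℤ :=
  TopologicalSpace.generateFrom {s | ∃ a : ℤ, ∃ m ∈ Qstar Q, s = {x | (m : ℤ) ∣ x - a}}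

/-- Uniformly bounded families of the coarse structure `E_Q`. -/
def EQ (Q : Set ℕ) (𝒜 : Set (Set ℤ)) : Prop :=
  ∃ K : Set ℤ, @IsCompact ℤ (tau Q) K ∧ ∀ A ∈ 𝒜, ∃ k : ℤ, A ⊆ (k + ·) '' K

/-- The word metric `d_S`, with value `⊤` if no expression exists. -/
noncomputable def dS (S : Set ℤ) (n m : ℤ) : ℕ∞ :=
  ⨅ (l : List ℤ) (_ : (∀ s ∈ l, s ∈ S ∨ -s ∈ S) ∧ l.sum = n - m), (l.length : ℕ∞)

/-- Uniformly bounded families of the coarse structure `E_Cay(S)`. -/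
def ECay (S : Set ℤ) (𝒜 : Set (Set ℤ)) : Prop :=
  ∃ R : ℕ, ∀ A ∈ 𝒜, ∀ x ∈ A, ∀ y ∈ A, dS S x y ≤ R

/-- `f` sends uniformly bounded families to uniformly bounded families. -/
def Controlled (E E' : Set (Set ℤ) → Prop) (f : ℤ → ℤ) : Prop :=
  ∀ 𝒜, E 𝒜 → E' ((f '' ·) '' 𝒜)

/-- `f` and `f'` are close. -/
def Close {ι : Type} (E : Set (Set ℤ) → Prop) (f f' : ι → ℤ) : Prop :=
  E (Set.range fun x => {f x, f' x})

/-- There is a coarse isomorphism `(ℤ, E) → (ℤ, E')` of coarse groups. -/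
def CoarseIso (E E' : Set (Set ℤ) → Prop) : Prop :=
  ∃ f g : ℤ → ℤ, Controlled E E' f ∧
    Close E' (fun p : ℤ × ℤ => f (p.1 + p.2)) (fun p => f p.1 + f p.2) ∧
    Controlled E' E g ∧ Close E (g ∘ f) id ∧ Close E' (f ∘ g) id

lemma basic (Q : Set ℕ) (a : ℤ) {m : ℕ} (hm : m ∈ Qstar Q) :
    IsOpen[tau Q] {x | (m : ℤ) ∣ x - a} :=
  TopologicalSpace.isOpen_generateFrom_of_mem ⟨a, m, hm, rfl⟩

lemma cont_sub (Q : Set ℕ) :
    letI := tau Q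
    Continuous fun p : ℤ × ℤ => p.1 - p.2 := by
  letI := tau Q
  rw [continuous_generateFrom_iff]
  rintro _ ⟨a, m, hm, rfl⟩
  rw [isOpen_prod_iff]
  intro x y h
  refine ⟨_, _, basic Q x hm, basic Q y hm, by simp, by simp, fun p hp => ?_⟩
  have := (hp.1.sub hp.2).add h
  change (m : ℤ) ∣ p.1 - p.2 - a
  rwa [show p.1 - p.2 - a = p.1 - x - (p.2 - y) + (x - y - a) by ring]

lemma comp_sub {Q : Set ℕ} {K L : Set ℤ} (hK : @IsCompact ℤ (tau Q) K)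
    (hL : @IsCompact ℤ (tau Q) L) :
    @IsCompact ℤ (tau Q) ((fun p : ℤ × ℤ => p.1 - p.2) '' K ×ˢ L) := by
  letI := tau Q
  exact (hK.prod hL).image (cont_sub Q)

lemma thin {Q : Set ℕ} {p : ℕ} (hp : p.Prime) (hQ : p ∈ Q) {K : Set ℤ}
    (hK : @IsCompact ℤ (tau Q) K) (m : ℕ) (hm : 0 < m) : ∃ x, (m : ℤ) ∣ x ∧ x ∉ K := by
  letI := tau Q
  by_contra! h
  obtain ⟨q, hq, hqQ⟩ : ∃ q : ℕ, m + 1 < q ∧ ∀ i, q ^ i ∈ Qstar Q :=
    ⟨p ^ (m + 1), Nat.lt_pow_self hp.one_lt, fun i => ⟨by have := hp.pos; positivity,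
      fun r hr h => by
        rwa [(Nat.prime_dvd_prime_iff_eq hr hp).mp (hr.dvd_of_dvd_pow (hr.dvd_of_dvd_pow h))]⟩⟩
  let D : ℕ → Set ℤ := fun i => {x | ¬ ((q ^ i : ℕ) : ℤ) ∣ (q - 1) * x + m}
  have hD : ∀ i, IsOpen (D i) := fun i => isOpen_iff_forall_mem_open.mpr fun x hx =>
    ⟨_, fun y hy h => hx (by
      have := h.sub (hy.mul_left ((q : ℤ) - 1))
      rwa [show ((q : ℤ) - 1) * x + m = (q - 1) * y + m - (q - 1) * (y - x) by ring]), basic Q x (hqQ i), by simp⟩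
  have hmono : Monotone D := fun i j hij x hx h =>
    hx ((Int.natCast_dvd_natCast.mpr (pow_dvd_pow q hij)).trans h)
  obtain ⟨i, hi⟩ := hK.elim_directed_cover D hD (fun x _ => by
    have h0 : ((q : ℤ) - 1) * x + m ≠ 0 := by
      intro h0
      have h1 : (q : ℤ) - 1 ∣ m := ⟨-x, by linarith⟩
      have := Int.le_of_dvd (by exact_mod_cast hm) h1
      omega
    refine Set.mem_iUnion.mpr ⟨(((q : ℤ) - 1) * x + m).natAbs, fun h => ?_⟩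
    have h2 := Nat.le_of_dvd (Int.natAbs_pos.mpr h0) (Int.natCast_dvd.mp h)
    exact absurd h2 (not_le.mpr (Nat.lt_pow_self (by omega)))) hmono.directed_le
  obtain ⟨c, hc⟩ := sub_one_dvd_pow_sub_one (q : ℤ) i
  refine hi (h (m * c) (dvd_mul_right _ _)) ⟨m, ?_⟩
  push_cast
  linear_combination -(m : ℤ) * hc

lemma key {Q : Set ℕ} {p : ℕ} (hp : p.Prime) (hQ : p ∈ Q) (S : Set ℤ) (f g : ℤ → ℤ)
    (hf : Controlled (EQ Q) (ECay S) f) (hg : Controlled (ECay S) (EQ Q) g)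
    (h : Close (EQ Q) (g ∘ f) id) : False := by
  letI := tau Q
  obtain ⟨C, hC, h⟩ := h
  have h1 : ∀ n : ℕ, ∃ K, IsCompact K ∧ ∀ x y, dS S x y ≤ n → dS S y x ≤ n →
      ∃ k, g x - k ∈ K ∧ g y - k ∈ K := by
    intro n
    obtain ⟨K, hK, h1⟩ := hg {A | ∃ x y, dS S x y ≤ n ∧ dS S y x ≤ n ∧ A = {x, y}} ⟨n, by
      have h0 : ∀ x, dS S x x ≤ n := fun x =>
        (iInf₂_le ([] : List ℤ) (by simp)).trans (by simp)
      rintro _ ⟨x, y, h1, h2, rfl⟩ _ (rfl | rfl) _ (rfl | rfl)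
      exacts [h0 _, h1, h2, h0 _]⟩
    refine ⟨K, hK, fun x y hx hy => ?_⟩
    obtain ⟨k, hk⟩ := h1 _ ⟨_, ⟨x, y, hx, hy, rfl⟩, rfl⟩
    obtain ⟨a, ha, h2⟩ := hk ⟨x, by simp, rfl⟩
    obtain ⟨b, hb, h3⟩ := hk ⟨y, by simp, rfl⟩
    exact ⟨k, by simpa [← h2] using ha, by simpa [← h3] using hb⟩
  choose K hK h1 using h1
  have hC2 := comp_sub hC hC
  choose x hx hx' using fun n => thin hp hQ
    (comp_sub (comp_sub (comp_sub (hK n) (hK n)) hC2) (comp_sub (comp_sub hC2 hC2) hC2))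
    n.factorial n.factorial_pos
  have hx0 : Tendsto x atTop (𝓝 0) := by
    rw [TopologicalSpace.tendsto_nhds_generateFrom_iff]
    rintro _ ⟨a, m, hm, rfl⟩ h0
    filter_upwards [eventually_ge_atTop m] with n hn
    have := ((Int.natCast_dvd_natCast.mpr (Nat.dvd_factorial hm.1 hn)).trans (hx n)).add h0
    simpa [sub_eq_add_neg] using this
  obtain ⟨n, hn⟩ := hf {insert 0 (Set.range x)} ⟨_, hx0.isCompact_insert_range, by
    rintro _ rfl; exact ⟨0, by simp⟩⟩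
  have h2 := hn _ ⟨_, rfl, rfl⟩
  obtain ⟨k, h3, h4⟩ := h1 n (f (x n)) (f 0) (h2 _ ⟨_, by simp, rfl⟩ _ ⟨_, by simp, rfl⟩)
    (h2 _ ⟨_, by simp, rfl⟩ _ ⟨_, by simp, rfl⟩)
  have h5 : ∀ y, g (f y) - y ∈ (fun p : ℤ × ℤ => p.1 - p.2) '' C ×ˢ C := by
    intro y
    obtain ⟨k, hk⟩ := h _ ⟨y, rfl⟩
    obtain ⟨a, ha, h2⟩ := hk (Set.mem_insert _ _)
    obtain ⟨b, hb, h3⟩ := hk (Set.mem_insert_of_mem _ rfl)
    exact ⟨(a, b), ⟨ha, hb⟩, by simp only [Function.comp, id] at h2 h3 ⊢; omega⟩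
  exact hx' n ⟨(_, _), ⟨⟨(_, _), ⟨⟨(_, _), ⟨h3, h4⟩, rfl⟩, h5 (x n)⟩, rfl⟩,
    ⟨(_, _), ⟨⟨(_, _), ⟨h5 0, h5 0⟩, rfl⟩, h5 0⟩, rfl⟩⟩, by simp only; ring⟩

/-- For no non-empty set of primes `Q` and `S ⊆ ℤ` are `(ℤ, E_Q)` and `(ℤ, E_Cay(S))` coarsely
isomorphic (in either direction). -/
theorem result (Q : Set ℕ) (hQ : ∀ p ∈ Q, p.Prime) (hne : Q.Nonempty) (S : Set ℤ) :
    ¬ CoarseIso (EQ Q) (ECay S) ∧ ¬ CoarseIso (ECay S) (EQ Q) := by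
  obtain ⟨p, hp⟩ := hne
  exact ⟨fun ⟨f, g, h1, _, h2, h3, _⟩ => key (hQ p hp) hp S f g h1 h2 h3,
    fun ⟨f, g, h1, _, h2, _, h3⟩ => key (hQ p hp) hp S g f h2 h1 h3⟩

end Pool.Agent.Results.MP_59b615_al.NotIso
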